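import Mathlib

/-!
Null sequences in the augmentation ideal of the free group of infinite rank do not factor with a
single left factor: for every element b of the augmentation ideal, one of the two differences
a_0 - 1, a_1 - 1 stays at distance more than 1/200 from all the products b * c.

Sketch. Suppose b * c_0 and b * c_1 are both within 1/200 of the differences a_0 - 1, a_1 - 1. On
square summable functions a coercive operator of the form b * S shows b * k = 1 for a square
summable k. A finiteness (Kaplansky type) argument shows that b is injective there, so the right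
gradient of k is c minus a small convolution of k. Outward averaging on the tree inverts the
right gradient both on summable and on square summable functions, hence k is summable,
which contradicts that b has sum zero.
-/

set_option autoImplicit false

section
open Filter Topology
open scoped ENNReal InnerProductSpace
namespace Pool.Agent.Results.MP_2822c4_an.SingleFactor.Kap

/-- The Hilbert space of square summable functions. -/
noncomputable abbrev H (G : Type) := lp (fun _ : G => ℂ) 2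

variable {G : Type}

theorem two_pos' : 0 < (2 : ℝ≥0∞).toReal := by norm_num

theorem memH_iff (f : G → ℂ) : Memℓp f 2 ↔ Summable (fun x => ‖f x‖ ^ 2) := by
  rw [memℓp_gen_iff two_pos']
  norm_num

theorem norm_sq (f : H G) : ‖f‖ ^ 2 = ∑' x, ‖f x‖ ^ 2 := by
  have := lp.norm_rpow_eq_tsum two_pos' f
  norm_num at this
  exact this

/-- Composition with a permutation, a linear isometry. -/
noncomputable def tr (σ : Equiv.Perm G) : H G →ₗᵢ[ℂ] H G where
  toFun f := ⟨fun x => f (σ x), by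
    have h := (memH_iff _).1 (lp.memℓp f)
    exact (memH_iff _).2 ((σ.summable_iff (f := fun x => ‖f x‖ ^ 2)).2 h)⟩
  map_add' f g := by ext x; rfl
  map_smul' c f := by ext x; rfl
  norm_map' f := by
    have h : ∀ g : H G, ‖g‖ = Real.sqrt (∑' x, ‖g x‖ ^ 2) := fun g => by
      rw [← norm_sq, Real.sqrt_sq (norm_nonneg _)]
    rw [h, h]
    congr 1
    exact σ.tsum_eq (fun x => ‖f x‖ ^ 2)

@[simp] theorem tr_apply (σ : Equiv.Perm G) (f : H G) (x : G) : tr σ f x = f (σ x) := rfl

theorem tr_inner (σ : Equiv.Perm G) (f g : H G) : ⟪tr σ f, tr σ g⟫_ℂ = ⟪f, g⟫_ℂ :=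
  (tr σ).inner_map_map f g

variable [Group G]

/-- Left convolution by an absolutely summable function, on square summable functions. -/
noncomputable def conv (b : G → ℂ) : H G →L[ℂ] H G :=
  ∑' g, b g • (tr (Equiv.mulLeft g⁻¹)).toContinuousLinearMap

/-- Right convolution. -/
noncomputable def rconv (b : G → ℂ) (k : H G) : H G :=
  ∑' g, b g • (tr (Equiv.mulRight g⁻¹) k)

omit [Group G] in
theorem norm_tr_le (σ : Equiv.Perm G) :
    ‖(tr σ).toContinuousLinearMap‖ ≤ 1 := LinearIsometry.norm_toContinuousLinearMap_le _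

theorem summable_conv {b : G → ℂ} (hb : Summable fun g => ‖b g‖) :
    Summable fun g => b g • (tr (Equiv.mulLeft g⁻¹)).toContinuousLinearMap := by
  refine Summable.of_norm_bounded hb (fun g => ?_)
  rw [norm_smul]
  exact mul_le_of_le_one_right (norm_nonneg _) (norm_tr_le _)

theorem conv_apply {b : G → ℂ} (hb : Summable fun g => ‖b g‖) (f : H G) (x : G) :
    conv b f x = ∑' g, b g * f (g⁻¹ * x) := by
  have h1 : HasSum (fun g => b g • (tr (Equiv.mulLeft g⁻¹)).toContinuousLinearMap) (conv b) :=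
    (summable_conv hb).hasSum
  have h2 := h1.mapL ((lp.evalCLM ℂ (fun _ : G => ℂ) 2 x).comp
    (ContinuousLinearMap.apply ℂ (H G) f))
  exact h2.tsum_eq.symm

theorem summable_rconv {b : G → ℂ} (hb : Summable fun g => ‖b g‖) (k : H G) :
    Summable fun g => b g • (tr (Equiv.mulRight g⁻¹) k) := by
  refine Summable.of_norm_bounded (g := fun g => ‖b g‖ * ‖k‖) (hb.mul_right _) (fun g => ?_)
  rw [norm_smul, (tr _).norm_map]

theorem rconv_apply {b : G → ℂ} (hb : Summable fun g => ‖b g‖) (k : H G) (x : G) :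
    rconv b k x = ∑' g, b g * k (x * g⁻¹) := by
  have h1 : HasSum (fun g => b g • (tr (Equiv.mulRight g⁻¹) k)) (rconv b k) :=
    (summable_rconv hb k).hasSum
  have h2 := h1.mapL (lp.evalCLM ℂ (fun _ : G => ℂ) 2 x)
  exact h2.tsum_eq.symm

/-- The delta function. -/
noncomputable def del [DecidableEq G] (x : G) : H G := lp.single 2 x 1

theorem conv_rtr {b : G → ℂ} (hb : Summable fun g => ‖b g‖) (h : G) (f : H G) :
    conv b (tr (Equiv.mulRight h) f) = tr (Equiv.mulRight h) (conv b f) := by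
  ext x
  rw [conv_apply hb, tr_apply, conv_apply hb]
  simp [mul_assoc]


/-- Kernel of left convolution. -/
noncomputable def N (b : G → ℂ) : Submodule ℂ (H G) := LinearMap.ker (conv b).toLinearMap

theorem mem_N (b : G → ℂ) (f : H G) : f ∈ N b ↔ conv b f = 0 := by
  simp [N]

theorem N_closed (b : G → ℂ) : IsClosed (N b : Set (H G)) := by
  have : (N b : Set (H G)) = (conv b) ⁻¹' {0} := by
    ext f; simp [N]
  rw [this]
  exact isClosed_singleton.preimage (conv b).continuous

instance (b : G → ℂ) : CompleteSpace (N b) := (N_closed b).completeSpace_coe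

theorem N_inv {b : G → ℂ} (hb : Summable fun g => ‖b g‖) (h : G) {f : H G} (hf : f ∈ N b) :
    tr (Equiv.mulRight h) f ∈ N b := by
  rw [mem_N] at hf ⊢
  rw [conv_rtr hb, hf, map_zero]

omit [Group G] in
theorem tr_tr_symm (σ : Equiv.Perm G) (f : H G) : tr σ (tr σ.symm f) = f := by
  ext x; simp

theorem Nperp_inv {b : G → ℂ} (hb : Summable fun g => ‖b g‖) (h : G) {f : H G}
    (hf : f ∈ (N b)ᗮ) : tr (Equiv.mulRight h) f ∈ (N b)ᗮ := by
  rw [Submodule.mem_orthogonal] at hf ⊢
  intro u hu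
  have h1 : u = tr (Equiv.mulRight h) (tr (Equiv.mulRight h).symm u) := (tr_tr_symm _ _).symm
  rw [h1, tr_inner]
  apply hf
  have h2 := N_inv hb h⁻¹ hu
  have h3 : (Equiv.mulRight h).symm = Equiv.mulRight h⁻¹ := by ext; simp
  rw [h3]
  exact h2

theorem rconv_mem {b : G → ℂ} (hb : Summable fun g => ‖b g‖) {k : H G} (hk : k ∈ (N b)ᗮ) :
    rconv b k ∈ (N b)ᗮ := by
  have h1 : HasSum (fun g => b g • (tr (Equiv.mulRight g⁻¹) k)) (rconv b k) :=
    (summable_rconv hb k).hasSum
  refine (N b).isClosed_orthogonal.mem_of_tendsto h1 (Eventually.of_forall fun s => ?_)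
  exact Submodule.sum_mem _ fun g _ => Submodule.smul_mem _ _ (Nperp_inv hb _ hk)

theorem conv_rconv {b : G → ℂ} (hb : Summable fun g => ‖b g‖) (k : H G) :
    conv b (rconv b k) = rconv b (conv b k) := by
  have h1 : HasSum (fun g => b g • (tr (Equiv.mulRight g⁻¹) k)) (rconv b k) :=
    (summable_rconv hb k).hasSum
  have h2 := h1.mapL (conv b)
  rw [← h2.tsum_eq]
  unfold rconv
  congr 1
  ext g
  rw [map_smul, conv_rtr hb]

variable [DecidableEq G]

theorem kaplansky {b : G → ℂ} (hb : Summable fun g => ‖b g‖) (k : H G)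
    (hk : conv b k = lp.single 2 1 1) (n : H G) (hn : conv b n = 0) : n = 0 := by
  set δ : H G := lp.single 2 1 1 with hδ
  -- replace k by its projection on the orthogonal complement of the kernel
  obtain ⟨k', hk'1, hk'2⟩ : ∃ k' : H G, k' ∈ (N b)ᗮ ∧ conv b k' = δ := by
    refine ⟨k - (N b).starProjection k, ?_, ?_⟩
    · exact Submodule.sub_starProjection_mem_orthogonal k
    · have : conv b ((N b).starProjection k) = 0 := by
        rw [← mem_N]
        exact Submodule.starProjection_apply_mem _ _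
      rw [map_sub, this, sub_zero, hk]
  have hu := rconv_mem hb hk'1
  set u := rconv b k' with hudef
  have h1 : conv b u = conv b δ := by
    rw [hudef, conv_rconv hb, hk'2]
    ext x
    rw [rconv_apply hb, conv_apply hb]
    rw [tsum_eq_single x, tsum_eq_single x]
    · simp [hδ]
    · intro g hg
      have : g⁻¹ * x ≠ 1 := fun h => hg (by rw [inv_mul_eq_one] at h; exact h)
      simp [hδ, this]
    · intro g hg
      have : x * g⁻¹ ≠ 1 := fun h => hg (by rw [mul_inv_eq_one] at h; exact h.symm)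
      simp [hδ, this]
  have h2 : δ - u ∈ N b := by
    rw [mem_N, map_sub, h1, sub_self]
  have h3 : u 1 = 1 := by
    have h4 : conv b k' 1 = 1 := by rw [hk'2]; simp [hδ]
    rw [← h4, hudef, rconv_apply hb, conv_apply hb]
    simp
  -- the component of δ in the kernel vanishes
  have h5 : δ - u = 0 := by
    have h6 : ⟪δ - u, u⟫_ℂ = 0 := (Submodule.mem_orthogonal _ _).1 hu _ h2
    have h7 : ⟪δ, u⟫_ℂ = 1 := by
      rw [hδ, lp.inner_single_left]; simp [h3]
    have h8 : ⟪δ, δ⟫_ℂ = 1 := by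
      rw [hδ, lp.inner_single_left]; simp
    have h9 : ⟪δ - u, δ⟫_ℂ = 0 := by
      have h10 : ⟪u, δ⟫_ℂ = 1 := by
        rw [← inner_conj_symm, h7]; simp
      rw [inner_sub_left, h8, h10, sub_self]
    have : ⟪δ - u, δ - u⟫_ℂ = 0 := by
      rw [inner_sub_right, h9, h6, sub_self]
    exact inner_self_eq_zero.1 this
  have h6 : δ ∈ (N b)ᗮ := by
    have : δ = u := sub_eq_zero.1 h5
    rw [this]; exact hu
  ext g
  have h7 : tr (Equiv.mulRight g⁻¹) δ ∈ (N b)ᗮ := Nperp_inv hb _ h6
  have h8 : ⟪n, tr (Equiv.mulRight g⁻¹) δ⟫_ℂ = 0 :=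
    (Submodule.mem_orthogonal _ _).1 h7 _ ((mem_N _ _).2 hn)
  have h9 : tr (Equiv.mulRight g⁻¹) δ = lp.single 2 g 1 := by
    ext x
    rw [tr_apply]
    by_cases hx : x = g
    · subst hx; simp [hδ]
    · have : x * g⁻¹ ≠ 1 := fun h => hx (by rw [mul_inv_eq_one] at h; exact h)
      simp [hδ, this, hx]
  rw [h9, lp.inner_single_right] at h8
  simpa using h8

end Pool.Agent.Results.MP_2822c4_an.SingleFactor.Kap
end

section
open Filter Topology
namespace Pool.Agent.Results.MP_2822c4_an.SingleFactor.Tree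

/-- Averaging over two disjoint injective child maps: a nonnegative function vanishing at
infinity with summable outward differences is summable. -/
theorem summable_of_children {G : Type} (K : G → ℝ) (hK : ∀ g, 0 ≤ K g)
    (hfin : ∀ T : ℝ, 0 < T → {g | T < K g}.Finite) (φ ψ : G → G)
    (hinj : Function.Injective (Sum.elim φ ψ))
    (h1 : Summable fun g => |K g - K (φ g)|) (h2 : Summable fun g => |K g - K (ψ g)|) :
    Summable K := by
  set A : ℝ := (∑' g, |K g - K (φ g)|) + ∑' g, |K g - K (ψ g)| with hA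
  have key : ∀ T : ℝ, 0 < T → ∑' g, max (K g - T) 0 ≤ A := by
    intro T hT
    set L : G → ℝ := fun g => max (K g - T) 0 with hL
    have hL0 : ∀ g, 0 ≤ L g := fun g => le_max_right _ _
    have hLs : Summable L := by
      refine summable_of_hasFiniteSupport ((hfin T hT).subset ?_)
      intro g hg
      by_contra hcon
      apply hg
      simp only [Set.mem_ofPred_eq, not_lt] at hcon
      simp only [hL]
      exact max_eq_right (by linarith)
    have hLip : ∀ g g', L g ≤ L g' + |K g - K g'| := by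
      intro g g'
      simp only [hL]
      apply max_le
      · have := le_abs_self (K g - K g')
        have := le_max_left (K g' - T) 0
        linarith
      · have := abs_nonneg (K g - K g')
        have := le_max_right (K g' - T) 0
        linarith
    have hφi : Function.Injective φ := fun x y h => by
      have := @hinj (Sum.inl x) (Sum.inl y) (by simpa using h)
      simpa using this
    have hψi : Function.Injective ψ := fun x y h => by
      have := @hinj (Sum.inr x) (Sum.inr y) (by simpa using h)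
      simpa using this
    have hφs : Summable fun g => L (φ g) := hLs.comp_injective hφi
    have hψs : Summable fun g => L (ψ g) := hLs.comp_injective hψi
    have hsum : (∑' g, L (φ g)) + ∑' g, L (ψ g) ≤ ∑' g, L g := by
      have h3 : Summable (fun s => L (Sum.elim φ ψ s)) := hLs.comp_injective hinj
      have h4 : ∑' s, L (Sum.elim φ ψ s) = (∑' g, L (φ g)) + ∑' g, L (ψ g) := by
        exact Summable.tsum_sum (f := fun s => L (Sum.elim φ ψ s)) hφs hψs
      rw [← h4]
      exact tsum_comp_le_tsum_of_inj hLs hL0 hinj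
    have e1 : ∑' g, L g ≤ ∑' g, (L (φ g) + |K g - K (φ g)|) :=
      hLs.tsum_le_tsum (fun g => hLip _ _) (hφs.add h1)
    have e2 : ∑' g, L g ≤ ∑' g, (L (ψ g) + |K g - K (ψ g)|) :=
      hLs.tsum_le_tsum (fun g => hLip _ _) (hψs.add h2)
    rw [hφs.tsum_add h1] at e1
    rw [hψs.tsum_add h2] at e2
    linarith
  refine summable_of_sum_le (c := A) hK (fun s => ?_)
  refine le_of_forall_pos_le_add (fun ε hε => ?_)
  set T : ℝ := ε / (s.card + 1) with hT
  have hTpos : 0 < T := by positivity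
  have hLs : Summable (fun g => max (K g - T) 0) := by
    refine summable_of_hasFiniteSupport ((hfin T hTpos).subset ?_)
    intro g hg
    by_contra hcon
    apply hg
    simp only [Set.mem_ofPred_eq, not_lt] at hcon
    exact max_eq_right (by linarith)
  have h3 : ∑ g ∈ s, K g ≤ ∑ g ∈ s, (max (K g - T) 0 + T) := by
    apply Finset.sum_le_sum
    intro g _
    have := le_max_left (K g - T) 0
    linarith
  have h4 : ∑ g ∈ s, max (K g - T) 0 ≤ ∑' g, max (K g - T) 0 :=
    hLs.sum_le_tsum s (fun _ _ => le_max_right _ _)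
  have h5 : (s.card : ℝ) * T ≤ ε := by
    rw [hT, mul_div_assoc', div_le_iff₀ (by positivity)]
    nlinarith
  calc ∑ g ∈ s, K g ≤ ∑ g ∈ s, (max (K g - T) 0 + T) := h3
    _ = ∑ g ∈ s, max (K g - T) 0 + s.card * T := by
      rw [Finset.sum_add_distrib, Finset.sum_const, nsmul_eq_mul]
    _ ≤ A + ε := by linarith [key T hTpos]

variable {α : Type} [DecidableEq α]

open FreeGroup

/-- The child of g in direction i. -/
def child (i : α) (g : FreeGroup α) : FreeGroup α :=
  if g.toWord.getLast? = some (i, false) then g * (of i)⁻¹ else g * of i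

theorem toWord_mul_letter (g : FreeGroup α) (l : α × Bool)
    (h : ∀ a ∈ g.toWord.getLast?, a.1 = l.1 → a.2 = l.2) :
    (g * mk [l]).toWord = g.toWord ++ [l] := by
  rw [toWord_mul, toWord_mk, reduce_singleton]
  apply IsReduced.reduce_eq
  unfold FreeGroup.IsReduced
  rw [List.isChain_append]
  refine ⟨isReduced_toWord, List.isChain_singleton _, ?_⟩
  intro x hx y hy
  simp at hy
  subst hy
  exact h x hx

theorem toWord_child (i : α) (g : FreeGroup α) :
    ∃ s : Bool, (child i g).toWord = g.toWord ++ [(i, s)] := by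
  unfold child
  split_ifs with h
  · refine ⟨false, ?_⟩
    have : (of i)⁻¹ = mk [(i, false)] := rfl
    rw [this]
    apply toWord_mul_letter
    intro a ha h1
    rw [h] at ha
    simp at ha
    rw [← ha]
  · refine ⟨true, ?_⟩
    have : (of i) = mk [(i, true)] := rfl
    rw [this]
    apply toWord_mul_letter
    intro a ha h1
    by_contra h2
    apply h
    rw [Option.mem_def] at ha
    rw [ha]
    have : a = (i, false) := Prod.ext h1 (by simpa using h2)
    rw [this]

theorem child_injective {i j : α} (hij : i ≠ j) :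
    Function.Injective (Sum.elim (child i) (child j)) := by
  have main : ∀ (a b : α) (g h : FreeGroup α), child a g = child b h → a = b ∧ g = h := by
    intro a b g h hgh
    obtain ⟨s, hs⟩ := toWord_child a g
    obtain ⟨t, ht⟩ := toWord_child b h
    rw [hgh, ht] at hs
    have h1 := List.append_inj' hs rfl
    have h2 : h = g := toWord_injective h1.1
    have h3 : (b, t) = (a, s) := by simpa using h1.2
    exact ⟨(congrArg Prod.fst h3).symm, h2.symm⟩
  rintro (g | g) (h | h) hgh
  · simp only [Sum.elim_inl] at hgh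
    rw [(main _ _ _ _ hgh).2]
  · simp only [Sum.elim_inl, Sum.elim_inr] at hgh
    exact absurd (main _ _ _ _ hgh).1 hij
  · simp only [Sum.elim_inl, Sum.elim_inr] at hgh
    exact absurd (main _ _ _ _ hgh).1 hij.symm
  · simp only [Sum.elim_inr] at hgh
    rw [(main _ _ _ _ hgh).2]

theorem summable_child {K : FreeGroup α → ℝ} {i : α}
    (h : Summable fun g => |K (g * (of i)⁻¹) - K g|) :
    Summable fun g => |K g - K (child i g)| := by
  have h' : Summable fun g => |K g - K (g * of i)| := by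
    have := (Equiv.mulRight (of i)).summable_iff.2 h
    simpa [Function.comp_def] using this
  refine Summable.of_nonneg_of_le (fun _ => abs_nonneg _) (fun g => ?_) (h'.add h)
  unfold child
  split_ifs
  · rw [abs_sub_comm]
    have := abs_nonneg (K g - K (g * of i))
    linarith
  · have := abs_nonneg (K (g * (of i)⁻¹) - K g)
    linarith

/-- The letter weights. -/
def wt (i j : α) (A B : ℂ) (l : α × Bool) : ℂ :=
  if l = (i, true) then A else if l = (j, true) then B else 0

/-- The Green type function of the positive walk. -/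
def Gr (i j : α) (A B : ℂ) (g : FreeGroup α) : ℂ := (g.toWord.map (wt i j A B)).prod

theorem toWord_inv_of_mul (i : α) (g : FreeGroup α) :
    ((of i)⁻¹ * g).toWord = if g.toWord.head? = some (i, true) then g.toWord.tail
      else (i, false) :: g.toWord := by
  have h1 : (of i)⁻¹ = mk [(i, false)] := rfl
  rw [h1, toWord_mul, toWord_mk, reduce_singleton, List.singleton_append, reduce.cons,
    reduce_toWord]
  cases h : g.toWord with
  | nil => simp
  | cons hd tl =>
    obtain ⟨c, s⟩ := hd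
    simp only [List.head?_cons, List.tail_cons, Option.some.injEq, Prod.mk.injEq]
    by_cases h2 : c = i
    · subst h2
      cases s <;> simp
    · have h3 : ¬ i = c := fun h => h2 h.symm
      simp [h2, h3]

theorem Gr_eq {i j : α} (hij : i ≠ j) (A B : ℂ) (g : FreeGroup α) :
    Gr i j A B g - A * Gr i j A B ((of i)⁻¹ * g) - B * Gr i j A B ((of j)⁻¹ * g) =
      if g = 1 then 1 else 0 := by
  unfold Gr
  rw [toWord_inv_of_mul, toWord_inv_of_mul]
  cases h : g.toWord with
  | nil =>
    have : g = 1 := toWord_eq_nil_iff.1 h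
    simp [this, wt]
  | cons hd tl =>
    have hg : g ≠ 1 := fun h0 => by
      rw [h0, toWord_one] at h
      exact absurd h (by simp)
    obtain ⟨c, s⟩ := hd
    simp only [List.head?_cons, List.tail_cons, Option.some.injEq, if_neg hg]
    by_cases h2 : ((c, s) : α × Bool) = (i, true)
    · have h3 : ¬ ((c, s) : α × Bool) = (j, true) := by
        rw [h2]
        intro h4
        exact hij (congrArg Prod.fst h4)
      rw [if_pos h2, if_neg h3]
      simp [wt, h2]
    · by_cases h3 : ((c, s) : α × Bool) = (j, true)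
      · rw [if_neg h2, if_pos h3]
        simp [wt, h3, hij.symm]
      · rw [if_neg h2, if_neg h3]
        simp [wt, h2, h3]

theorem summable_list {p : Bool → ℝ} (hp : ∀ b, 0 ≤ p b) (h : p true + p false < 1) :
    Summable fun l : List Bool => (l.map p).prod := by
  rw [← (List.equivSigmaTuple (α := Bool)).symm.summable_iff]
  have h0 : ((fun l : List Bool => (l.map p).prod) ∘ (List.equivSigmaTuple (α := Bool)).symm) =
      fun x : (Σ n, Fin n → Bool) => ∏ i, p (x.2 i) := by
    ext x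
    obtain ⟨n, f⟩ := x
    simp [List.equivSigmaTuple, List.map_ofFn, List.prod_ofFn]
  rw [h0, summable_sigma_of_nonneg (fun x => Finset.prod_nonneg fun i _ => hp _)]
  refine ⟨fun n => (hasSum_fintype _).summable, ?_⟩
  have h1 : ∀ n : ℕ, ∑' f : Fin n → Bool, ∏ i, p (f i) = (p true + p false) ^ n := by
    intro n
    rw [tsum_fintype, ← Fintype.sum_bool, Fintype.sum_pow]
  simp_rw [h1]
  exact summable_geometric_of_lt_one (add_nonneg (hp _) (hp _)) h

theorem summable_Gr {i j : α} (hij : i ≠ j) {A B : ℂ} (h : ‖A‖ ^ 2 + ‖B‖ ^ 2 < 1) :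
    Summable fun g => ‖Gr i j A B g‖ ^ 2 := by
  have h1 : (fun g => ‖Gr i j A B g‖ ^ 2) =
      (fun l : List (α × Bool) => (l.map fun x => ‖wt i j A B x‖ ^ 2).prod) ∘ toWord := by
    ext g
    simp only [Gr, Function.comp]
    induction g.toWord with
    | nil => simp
    | cons hd tl ih =>
      simp only [List.map_cons, List.prod_cons, norm_mul, mul_pow, ih]
  rw [h1]
  apply Summable.comp_injective _ toWord_injective
  set ι : Bool → α × Bool := fun b => if b then (i, true) else (j, true) with hι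
  have hιi : Function.Injective ι := by
    intro a b hab
    cases a <;> cases b <;> simp [hι, hij, hij.symm] at hab ⊢
  rw [← (List.map_injective_iff.2 hιi).summable_iff]
  · have : ((fun l : List (α × Bool) => (l.map fun x => ‖wt i j A B x‖ ^ 2).prod) ∘ List.map ι) =
        fun l : List Bool => (l.map fun b => if b then ‖A‖ ^ 2 else ‖B‖ ^ 2).prod := by
      ext l
      simp only [Function.comp, List.map_map]
      congr 1
      apply List.map_congr_left
      intro b _
      cases b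
      · simp [hι, wt, hij.symm]
      · simp [hι, wt]
    rw [this]
    apply summable_list
    · intro b; split_ifs <;> positivity
    · simpa using h
  · intro l hl
    have : ∃ x ∈ l, ¬ (x ∈ Set.range ι) := by
      by_contra hcon
      push Not at hcon
      apply hl
      have h2 : l ∈ Set.range (List.map ι) := by
        rw [Set.range_list_map]
        exact hcon
      exact h2
    obtain ⟨x, hx, hx2⟩ := this
    apply List.prod_eq_zero
    rw [List.mem_map]
    refine ⟨x, hx, ?_⟩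
    have h3 : x ≠ (i, true) := fun h => hx2 ⟨true, by simp [hι, h]⟩
    have h4 : x ≠ (j, true) := fun h => hx2 ⟨false, by simp [hι, h]⟩
    simp [wt, h3, h4]

end Pool.Agent.Results.MP_2822c4_an.SingleFactor.Tree
end

section
open Filter Topology
namespace Pool.Agent.Results.MP_2822c4_an.SingleFactor.Main
open Pool.Agent.Results.MP_2822c4_an.SingleFactor.Kap Pool.Agent.Results.MP_2822c4_an.SingleFactor.Tree

variable {G : Type} [Group G]

/-- Convolution of functions. -/
noncomputable def cv (m S : G → ℂ) : G → ℂ := fun u => ∑' h, m h * S (h⁻¹ * u)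

/-- The shear (g, u) to (g, g inverse u). -/
def shear (G : Type) [Group G] : G × G ≃ G × G where
  toFun p := (p.1, p.1⁻¹ * p.2)
  invFun p := (p.1, p.1 * p.2)
  left_inv p := by simp
  right_inv p := by simp

omit [Group G] in
theorem summable_prod {m S : G → ℂ} (hm : Summable fun g => ‖m g‖) (hS : Summable fun g => ‖S g‖) :
    Summable fun p : G × G => ‖m p.1‖ * ‖S p.2‖ :=
  hm.mul_of_nonneg hS (fun _ => norm_nonneg _) (fun _ => norm_nonneg _)

theorem summable_cv {m S : G → ℂ} (hm : Summable fun g => ‖m g‖) (hS : Summable fun g => ‖S g‖) :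
    Summable fun u => ‖cv m S u‖ := by
  have h1 : Summable fun p : G × G => ‖m p.1‖ * ‖S (p.1⁻¹ * p.2)‖ := by
    have := (shear G).summable_iff.2 (summable_prod hm hS)
    exact this
  have h2 : Summable fun p : G × G => ‖m p.2‖ * ‖S (p.2⁻¹ * p.1)‖ := by
    have := (Equiv.prodComm G G).summable_iff.2 h1
    exact this
  have h3 := h2.prod
  refine Summable.of_nonneg_of_le (fun _ => norm_nonneg _) (fun u => ?_) h3
  have h4 : Summable fun h => ‖m h‖ * ‖S (h⁻¹ * u)‖ := h2.prod_factor u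
  have h5 : Summable fun h => ‖m h * S (h⁻¹ * u)‖ := by
    simpa only [norm_mul] using h4
  refine (norm_tsum_le_tsum_norm h5).trans (le_of_eq ?_)
  simp only [norm_mul]

theorem tsum_cv {m S : G → ℂ} (hm : Summable fun g => ‖m g‖) (hS : Summable fun g => ‖S g‖) :
    ∑' u, cv m S u = (∑' g, m g) * ∑' g, S g := by
  have h1 : Summable fun p : G × G => m p.1 * S (p.1⁻¹ * p.2) := by
    have := (shear G).summable_iff.2 (summable_prod hm hS)
    refine Summable.of_norm ?_
    simp only [norm_mul]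
    exact this
  have h2 : ∑' u, ∑' h, m h * S (h⁻¹ * u) = ∑' h, ∑' u, m h * S (h⁻¹ * u) := by
    exact Summable.tsum_comm (f := fun h u => m h * S (h⁻¹ * u)) h1
  unfold cv
  rw [h2]
  have h3 : ∀ h, ∑' u, m h * S (h⁻¹ * u) = m h * ∑' g, S g := by
    intro h
    rw [tsum_mul_left]
    congr 1
    exact (Equiv.mulLeft h⁻¹).tsum_eq S
  simp_rw [h3]
  rw [tsum_mul_right]

theorem conv_conv {m S : G → ℂ} (hm : Summable fun g => ‖m g‖) (hS : Summable fun g => ‖S g‖)
    (f : H G) : conv m (conv S f) = conv (cv m S) f := by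
  ext t
  rw [conv_apply hm, conv_apply (summable_cv hm hS)]
  simp_rw [conv_apply hS]
  have h0 : Summable fun p : G × G => m p.1 * (S p.2 * f (p.2⁻¹ * (p.1⁻¹ * t))) := by
    refine Summable.of_norm_bounded (g := fun p : G × G => (‖m p.1‖ * ‖S p.2‖) * ‖f‖)
      ((summable_prod hm hS).mul_right _) (fun p => ?_)
    rw [norm_mul, norm_mul, mul_assoc]
    have := lp.norm_apply_le_norm (p := 2) (by norm_num) f (p.2⁻¹ * (p.1⁻¹ * t))
    gcongr
  have h1 : Summable fun p : G × G => m p.1 * (S (p.1⁻¹ * p.2) * f (p.2⁻¹ * t)) := by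
    have := (shear G).summable_iff.2 h0
    refine this.congr (fun p => ?_)
    simp only [Function.comp, shear, Equiv.coe_fn_mk, mul_inv_rev, inv_inv, mul_assoc,
      mul_inv_cancel_left]
  calc ∑' g, m g * ∑' h, S h * f (h⁻¹ * (g⁻¹ * t))
      = ∑' g, ∑' h, m g * (S h * f (h⁻¹ * (g⁻¹ * t))) := by
        congr 1; ext g; rw [tsum_mul_left]
    _ = ∑' g, ∑' u, m g * (S (g⁻¹ * u) * f (u⁻¹ * t)) := by
        congr 1; ext g
        rw [← (Equiv.mulLeft g⁻¹).tsum_eq (fun h => m g * (S h * f (h⁻¹ * (g⁻¹ * t))))]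
        congr 1; ext u
        simp only [Equiv.coe_mulLeft, mul_inv_rev, inv_inv, mul_assoc, mul_inv_cancel_left]
    _ = ∑' u, ∑' g, m g * (S (g⁻¹ * u) * f (u⁻¹ * t)) :=
        (Summable.tsum_comm (f := fun g u => m g * (S (g⁻¹ * u) * f (u⁻¹ * t))) h1).symm
    _ = ∑' u, cv m S u * f (u⁻¹ * t) := by
        congr 1; ext u
        unfold cv
        rw [← tsum_mul_right]
        congr 1; ext g; ring

omit [Group G] in
theorem summable_sq_of_summable {f : G → ℂ} (hf : Summable fun g => ‖f g‖) : Memℓp f 2 := by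
  have : Memℓp f 1 := by
    rw [memℓp_gen_iff (by norm_num)]
    simpa using hf
  exact this.of_exponent_ge (by norm_num)

open FreeGroup in
/-- Main lemma: no single element m of the augmentation ideal divides both
differences i minus 1 and j minus 1. -/
theorem main_lemma {α : Type} [DecidableEq α] {i j : α} (hij : i ≠ j)
    (m f1 f2 : FreeGroup α → ℂ) (hm : Summable fun g => ‖m g‖) (hm0 : ∑' g, m g = 0)
    (hf1 : Summable fun g => ‖f1 g‖) (hf2 : Summable fun g => ‖f2 g‖)
    (h1 : ∀ g, cv m f1 g = (if g = of i then 1 else 0) - (if g = 1 then 1 else 0))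
    (h2 : ∀ g, cv m f2 g = (if g = of j then 1 else 0) - (if g = 1 then 1 else 0)) : False := by
  have hG : ‖(1/2 : ℂ)‖ ^ 2 + ‖(1/2 : ℂ)‖ ^ 2 < 1 := by norm_num
  set Gh : H (FreeGroup α) := ⟨Gr i j (1/2) (1/2), (memH_iff _).2 (summable_Gr hij hG)⟩ with hGh
  set S : FreeGroup α → ℂ := fun g => -(1/2) * (f1 g + f2 g) with hSdef
  have hS : Summable fun g => ‖S g‖ := by
    refine Summable.of_nonneg_of_le (fun _ => norm_nonneg _) (fun g => ?_) (hf1.add hf2)
    simp only [hSdef, norm_mul]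
    have : ‖(-(1/2) : ℂ)‖ = 1/2 := by norm_num
    rw [this]
    have := norm_add_le (f1 g) (f2 g)
    have h3 := norm_nonneg (f1 g + f2 g)
    linarith
  have hsm : ∀ {f : FreeGroup α → ℂ}, (Summable fun g => ‖f g‖) → ∀ u,
      Summable fun h => m h * f (h⁻¹ * u) := by
    intro f hf u
    have h3 : Summable fun p : FreeGroup α × FreeGroup α => ‖m p.1‖ * ‖f (p.1⁻¹ * p.2)‖ := by
      have := (shear (FreeGroup α)).summable_iff.2 (summable_prod hm hf)
      exact this
    have h4 := (((Equiv.prodComm _ _).summable_iff.2 h3).prod_factor u)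
    refine Summable.of_norm (h4.congr fun h => ?_)
    simp
  have hcvS : ∀ g, cv m S g = (if g = 1 then 1 else 0) - (1/2) * (if g = of i then 1 else 0)
      - (1/2) * (if g = of j then 1 else 0) := by
    intro g
    have : cv m S g = -(1/2) * (cv m f1 g + cv m f2 g) := by
      simp only [cv, hSdef]
      rw [← (hsm hf1 g).tsum_add (hsm hf2 g), ← tsum_mul_left]
      congr 1; ext h; ring
    rw [this, h1, h2]
    ring
  set k : H (FreeGroup α) := conv S Gh with hk
  have hkd : conv m k = lp.single 2 1 1 := by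
    rw [hk, conv_conv hm hS]
    ext t
    rw [conv_apply (summable_cv hm hS)]
    have h3 : ∀ g, cv m S g * Gh (g⁻¹ * t) = (if g = 1 then Gh t else 0)
        - (if g = of i then (1/2) * Gh ((of i)⁻¹ * t) else 0)
        - (if g = of j then (1/2) * Gh ((of j)⁻¹ * t) else 0) := by
      intro g
      rw [hcvS]
      have hi1 : of i ≠ 1 := of_ne_one i
      have hj1 : of j ≠ 1 := of_ne_one j
      have hij1 : of i ≠ of j := fun h => hij (of_injective h)
      by_cases ha : g = 1
      · subst ha; simp [hi1.symm, hj1.symm]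
      · by_cases hb : g = of i
        · subst hb; simp [hi1, hij1]
        · by_cases hc : g = of j
          · subst hc; simp [hj1, hij1.symm]
          · simp [ha, hb, hc]
    simp_rw [h3]
    rw [Summable.tsum_sub, Summable.tsum_sub, tsum_ite_eq, tsum_ite_eq, tsum_ite_eq]
    · have := Gr_eq hij (1/2) (1/2) t
      simp only [hGh]
      rw [this]
      by_cases ht : t = 1
      · subst ht; simp
      · simp [ht]
    · exact (hasSum_ite_eq _ _).summable
    · exact (hasSum_ite_eq _ _).summable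
    · exact ((hasSum_ite_eq _ _).summable).sub (hasSum_ite_eq _ _).summable
    · exact (hasSum_ite_eq _ _).summable
  have hinj := kaplansky hm k hkd
  -- identify the right differences of k
  have hdiff : ∀ (c : α) (f : FreeGroup α → ℂ) (hf : Summable fun g => ‖f g‖)
      (_ : ∀ g, cv m f g = (if g = of c then 1 else 0) - (if g = 1 then 1 else 0)),
      ∀ g, k (g * (of c)⁻¹) - k g = f g := by
    intro c f hf hcv g
    set fh : H (FreeGroup α) := ⟨f, summable_sq_of_summable hf⟩ with hfh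
    have h3 : conv m (tr (Equiv.mulRight (of c)⁻¹) k - k - fh) = 0 := by
      rw [map_sub, map_sub, conv_rtr hm, hkd]
      ext t
      have h4 : conv m fh t = (if t = of c then 1 else 0) - (if t = 1 then 1 else 0) := by
        rw [conv_apply hm, ← hcv t]
        rfl
      have h5 : (tr (Equiv.mulRight (of c)⁻¹) (lp.single 2 1 1 : H (FreeGroup α))) t =
          if t = of c then 1 else 0 := by
        rw [tr_apply]
        by_cases ht : t = of c
        · subst ht; simp
        · have : t * (of c)⁻¹ ≠ 1 := fun h => ht (by rwa [mul_inv_eq_one] at h)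
          simp [ht, this]
      have h6 : (lp.single 2 1 1 : H (FreeGroup α)) t = if t = 1 then 1 else 0 := by
        by_cases ht : t = 1
        · subst ht; simp
        · simp [ht]
      simp only [lp.coeFn_sub, Pi.sub_apply, lp.coeFn_zero, Pi.zero_apply]
      rw [h4, h5, h6]
      ring
    have h7 := hinj _ h3
    have h8 := congrArg (fun F : H (FreeGroup α) => F g) h7
    simp only [lp.coeFn_sub, Pi.sub_apply, lp.coeFn_zero, Pi.zero_apply, tr_apply,
      Equiv.coe_mulRight] at h8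
    have h9 : fh g = f g := rfl
    rw [h9] at h8
    exact sub_eq_zero.1 h8
  have hK : ∀ (c : α) (f : FreeGroup α → ℂ) (hf : Summable fun g => ‖f g‖)
      (_ : ∀ g, k (g * (of c)⁻¹) - k g = f g),
      Summable fun g => |‖k (g * (of c)⁻¹)‖ - ‖k g‖| := by
    intro c f hf h
    refine Summable.of_nonneg_of_le (fun _ => abs_nonneg _) (fun g => ?_) hf
    rw [← h g]
    exact abs_norm_sub_norm_le _ _
  have s1 := summable_child (K := fun g => ‖k g‖) (hK i f1 hf1 (hdiff i f1 hf1 h1))
  have s2 := summable_child (K := fun g => ‖k g‖) (hK j f2 hf2 (hdiff j f2 hf2 h2))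
  have hksum : Summable fun g => ‖k g‖ := by
    refine summable_of_children (fun g => ‖k g‖) (fun _ => norm_nonneg _) ?_ (child i) (child j)
      (child_injective hij) s1 s2
    intro T hT
    have h3 : Summable (fun x => ‖k x‖ ^ 2) := (memH_iff _).1 (lp.memℓp k)
    have h4 := h3.tendsto_cofinite_zero
    have h5 := (h4.eventually (gt_mem_nhds (by positivity : (0:ℝ) < T ^ 2)))
    rw [Filter.eventually_cofinite] at h5
    refine h5.subset ?_
    intro g hg
    simp only [Set.mem_ofPred_eq, not_lt] at hg ⊢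
    gcongr
  have h3 := tsum_cv hm hksum
  rw [hm0, zero_mul] at h3
  have h4 : ∀ t, cv m (fun g => k g) t = if t = 1 then 1 else 0 := by
    intro t
    have h5 : cv m (fun g => k g) t = conv m k t := (conv_apply hm k t).symm
    rw [h5, hkd]
    by_cases ht : t = 1
    · subst ht; simp
    · simp [ht]
  simp_rw [h4] at h3
  rw [tsum_ite_eq] at h3
  exact one_ne_zero h3

end Pool.Agent.Results.MP_2822c4_an.SingleFactor.Main
end

section
open Filter Topology
open scoped ENNReal
namespace Pool.Agent.Results.MP_2822c4_an.SingleFactor.Base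
open Pool.Agent.Results.MP_2822c4_an.SingleFactor.Kap

section general
variable {G : Type} [Group G] [DecidableEq G]

omit [Group G] in
theorem enorm_tsum_le {ι : Type} (f : ι → ℂ) : ‖∑' x, f x‖ₑ ≤ ∑' x, ‖f x‖ₑ := by
  by_cases hf : Summable fun x => ‖f x‖
  · rw [← ofReal_norm]
    refine (ENNReal.ofReal_le_ofReal (norm_tsum_le_tsum_norm hf)).trans ?_
    rw [ENNReal.ofReal_tsum_of_nonneg (fun _ => norm_nonneg _) hf]
    simp_rw [ofReal_norm]
    exact le_rfl
  · have : ¬ Summable f := fun h => hf h.norm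
    rw [tsum_eq_zero_of_not_summable this]
    simp

theorem tsum_enorm_ne_top {ι : Type} {f : ι → ℂ} (hf : Summable fun x => ‖f x‖) :
    ∑' x, ‖f x‖ₑ ≠ ∞ := by
  simp_rw [← ofReal_norm]
  rw [← ENNReal.ofReal_tsum_of_nonneg (fun _ => norm_nonneg _) hf]
  exact ENNReal.ofReal_ne_top

theorem summable_of_enorm {ι : Type} {f : ι → ℂ} (hf : ∑' x, ‖f x‖ₑ ≠ ∞) :
    Summable fun x => ‖f x‖ := by
  have := ENNReal.summable_toReal hf
  refine this.congr fun x => ?_
  simp [toReal_enorm]

theorem del_apply (t : G) : (lp.single 2 1 1 : H G) t = if t = 1 then 1 else 0 := by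
  by_cases ht : t = 1
  · subst ht; simp
  · simp [ht]

theorem tr_del (c t : G) : (tr (Equiv.mulRight c⁻¹) (lp.single 2 1 1 : H G)) t =
    if t = c then 1 else 0 := by
  rw [tr_apply]
  by_cases ht : t = c
  · subst ht; simp
  · have : t * c⁻¹ ≠ 1 := fun h => ht (by rwa [mul_inv_eq_one] at h)
    simp [ht, this]

end general

end Pool.Agent.Results.MP_2822c4_an.SingleFactor.Base
end

section
open Filter Topology
open scoped ENNReal InnerProductSpace
namespace Pool.Agent.Results.MP_2822c4_an.SingleFactor.Grad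
open Pool.Agent.Results.MP_2822c4_an.SingleFactor.Kap Pool.Agent.Results.MP_2822c4_an.SingleFactor.Tree Pool.Agent.Results.MP_2822c4_an.SingleFactor.Main
open Pool.Agent.Results.MP_2822c4_an.SingleFactor.Base

section ops
variable {G : Type}

/-- Linear map given by a pointwise formula with a square sum bound. -/
noncomputable def mkLin (A : (G → ℂ) →ₗ[ℂ] (G → ℂ)) (C : ℝ)
    (h : ∀ f : H G, Summable (fun x => ‖A f x‖ ^ 2) ∧ ∑' x, ‖A f x‖ ^ 2 ≤ (C * ‖f‖) ^ 2) :
    H G →ₗ[ℂ] H G where
  toFun f := ⟨A f, (memH_iff _).2 (h f).1⟩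
  map_add' f g := by
    apply Subtype.ext
    exact A.map_add f g
  map_smul' c f := by
    apply Subtype.ext
    exact A.map_smul c f

theorem mkLin_bound (A : (G → ℂ) →ₗ[ℂ] (G → ℂ)) (C : ℝ) (hC : 0 ≤ C) (h) (f : H G) :
    ‖mkLin A C h f‖ ≤ C * ‖f‖ := by
  have h1 : ‖mkLin A C h f‖ ^ 2 ≤ (C * ‖f‖) ^ 2 := by
    rw [norm_sq]
    exact (h f).2
  exact (abs_le_of_sq_le_sq' h1 (by positivity)).2

/-- Operator given by a pointwise formula with a square sum bound. -/
noncomputable def mkOp (A : (G → ℂ) →ₗ[ℂ] (G → ℂ)) (C : ℝ) (hC : 0 ≤ C)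
    (h : ∀ f : H G, Summable (fun x => ‖A f x‖ ^ 2) ∧ ∑' x, ‖A f x‖ ^ 2 ≤ (C * ‖f‖) ^ 2) :
    H G →L[ℂ] H G :=
  LinearMap.mkContinuous (mkLin A C h) C (mkLin_bound A C hC h)

theorem mkOp_apply (A : (G → ℂ) →ₗ[ℂ] (G → ℂ)) (C : ℝ) (hC) (h) (f : H G) (x : G) :
    mkOp A C hC h f x = A f x := rfl

theorem norm_mkOp_le (A : (G → ℂ) →ₗ[ℂ] (G → ℂ)) (C : ℝ) (hC : 0 ≤ C) (h) :
    ‖mkOp A C hC h‖ ≤ C := LinearMap.mkContinuous_norm_le _ hC _

theorem summable_sqH (f : H G) : Summable (fun x => ‖f x‖ ^ 2) := (memH_iff _).1 (lp.memℓp f)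

/-- Averaging over two disjoint injective maps. -/
noncomputable def avg (φ ψ : G → G) : (G → ℂ) →ₗ[ℂ] (G → ℂ) where
  toFun f := fun x => (1/2) * (f (φ x) + f (ψ x))
  map_add' f g := by ext x; simp; ring
  map_smul' c f := by ext x; simp; ring

theorem avg_bound {φ ψ : G → G} (hinj : Function.Injective (Sum.elim φ ψ)) (f : H G) :
    Summable (fun x => ‖avg φ ψ f x‖ ^ 2) ∧
      ∑' x, ‖avg φ ψ f x‖ ^ 2 ≤ (Real.sqrt (1/2) * ‖f‖) ^ 2 := by
  have hφi : Function.Injective φ := fun x y h => by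
    have := @hinj (Sum.inl x) (Sum.inl y) (by simpa using h)
    simpa using this
  have hψi : Function.Injective ψ := fun x y h => by
    have := @hinj (Sum.inr x) (Sum.inr y) (by simpa using h)
    simpa using this
  have hs := summable_sqH f
  have h1 : Summable (fun x => ‖f (φ x)‖ ^ 2) := hs.comp_injective hφi
  have h2 : Summable (fun x => ‖f (ψ x)‖ ^ 2) := hs.comp_injective hψi
  have hpt : ∀ x, ‖avg φ ψ f x‖ ^ 2 ≤ (1/2) * (‖f (φ x)‖ ^ 2 + ‖f (ψ x)‖ ^ 2) := by
    intro x
    have h3 : ‖avg φ ψ f x‖ ≤ (1/2) * (‖f (φ x)‖ + ‖f (ψ x)‖) := by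
      change ‖(1/2 : ℂ) * (f (φ x) + f (ψ x))‖ ≤ _
      rw [norm_mul]
      have : ‖(1/2 : ℂ)‖ = 1/2 := by norm_num
      rw [this]
      have := norm_add_le (f (φ x)) (f (ψ x))
      linarith
    have h4 := norm_nonneg (avg φ ψ f x)
    have h5 := norm_nonneg (f (φ x))
    have h6 := norm_nonneg (f (ψ x))
    nlinarith [sq_nonneg (‖f (φ x)‖ - ‖f (ψ x)‖)]
  have hsum : (∑' x, ‖f (φ x)‖ ^ 2) + ∑' x, ‖f (ψ x)‖ ^ 2 ≤ ‖f‖ ^ 2 := by
    rw [norm_sq]
    have h4 : ∑' s, ‖f (Sum.elim φ ψ s)‖ ^ 2 = (∑' x, ‖f (φ x)‖ ^ 2) + ∑' x, ‖f (ψ x)‖ ^ 2 :=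
      Summable.tsum_sum (f := fun s => ‖f (Sum.elim φ ψ s)‖ ^ 2) h1 h2
    rw [← h4]
    exact tsum_comp_le_tsum_of_inj hs (fun _ => by positivity) hinj
  have hS : Summable (fun x => (1/2) * (‖f (φ x)‖ ^ 2 + ‖f (ψ x)‖ ^ 2)) :=
    (h1.add h2).mul_left _
  have hS' := Summable.of_nonneg_of_le (fun x => by positivity) hpt hS
  refine ⟨hS', ?_⟩
  calc ∑' x, ‖avg φ ψ f x‖ ^ 2 ≤ ∑' x, (1/2) * (‖f (φ x)‖ ^ 2 + ‖f (ψ x)‖ ^ 2) :=
        hS'.tsum_le_tsum hpt hS
    _ = (1/2) * ((∑' x, ‖f (φ x)‖ ^ 2) + ∑' x, ‖f (ψ x)‖ ^ 2) := by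
        rw [tsum_mul_left, h1.tsum_add h2]
    _ ≤ (1/2) * ‖f‖ ^ 2 := by gcongr
    _ = (Real.sqrt (1/2) * ‖f‖) ^ 2 := by
        rw [mul_pow, Real.sq_sqrt (by norm_num)]

/-- Selection operator: minus h at x when P x, otherwise h at the moved point. -/
noncomputable def sel (P : G → Prop) [DecidablePred P] (σ : G → G) :
    (G → ℂ) →ₗ[ℂ] (G → ℂ) where
  toFun h := fun x => if P x then - h x else h (σ x)
  map_add' f g := by ext x; simp only [Pi.add_apply]; split_ifs <;> ring
  map_smul' c f := by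
    ext x; simp only [Pi.smul_apply, smul_eq_mul, RingHom.id_apply]; split_ifs <;> ring

theorem sel_bound (P : G → Prop) [DecidablePred P] (σ : Equiv.Perm G) (f : H G) :
    Summable (fun x => ‖sel P σ f x‖ ^ 2) ∧
      ∑' x, ‖sel P σ f x‖ ^ 2 ≤ (2 * ‖f‖) ^ 2 := by
  have hs := summable_sqH f
  have h1 : Summable (fun x => ‖f (σ x)‖ ^ 2) := hs.comp_injective σ.injective
  have hpt : ∀ x, ‖sel P σ f x‖ ^ 2 ≤ ‖f x‖ ^ 2 + ‖f (σ x)‖ ^ 2 := by
    intro x
    change ‖if P x then - f x else f (σ x)‖ ^ 2 ≤ _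
    split_ifs
    · rw [norm_neg]; nlinarith [sq_nonneg ‖f (σ x)‖]
    · nlinarith [sq_nonneg ‖f x‖]
  have hS' := Summable.of_nonneg_of_le (fun x => by positivity) hpt (hs.add h1)
  refine ⟨hS', ?_⟩
  calc ∑' x, ‖sel P σ f x‖ ^ 2 ≤ ∑' x, (‖f x‖ ^ 2 + ‖f (σ x)‖ ^ 2) :=
        hS'.tsum_le_tsum hpt (hs.add h1)
    _ = ‖f‖ ^ 2 + ‖f‖ ^ 2 := by
        rw [hs.tsum_add h1, norm_sq]
        congr 1
        exact σ.tsum_eq (fun x => ‖f x‖ ^ 2)
    _ ≤ (2 * ‖f‖) ^ 2 := by nlinarith [sq_nonneg ‖f‖]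

end ops


/-- Sum of absolute values. -/
noncomputable def l1 {G : Type} (f : G → ℂ) : ℝ≥0∞ := ∑' x, ‖f x‖ₑ

theorem neumann {G : Type} (T : H G →L[ℂ] H G) (hT : ‖T‖ < 1) (θ : ℝ≥0∞) (hθ : θ < 1)
    (hl : ∀ f : H G, l1 (T f) ≤ θ * l1 f) (k F : H G) (hk : k = F + T k) (hF : l1 F ≠ ∞) :
    l1 k ≠ ∞ := by
  have hexp : ∀ m : ℕ, k = ∑ n ∈ Finset.range m, (T ^ n) F + (T ^ m) k := by
    intro m
    induction m with
    | zero => simp
    | succ m ih =>
      rw [Finset.sum_range_succ, add_assoc]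
      have : (T ^ m) F + (T ^ (m + 1)) k = (T ^ m) k := by
        rw [pow_succ]
        change (T ^ m) F + (T ^ m) (T k) = _
        rw [← map_add, ← hk]
      rw [this]
      exact ih
  have hnm : ∀ (m : ℕ) (f : H G), ‖(T ^ m) f‖ ≤ ‖T‖ ^ m * ‖f‖ := by
    intro m
    induction m with
    | zero => intro f; simp
    | succ m ih =>
      intro f
      rw [pow_succ']
      change ‖T ((T ^ m) f)‖ ≤ _
      refine (T.le_opNorm _).trans ?_
      rw [pow_succ', mul_assoc]
      exact mul_le_mul_of_nonneg_left (ih f) (norm_nonneg _)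
  have hTm : ∀ (m : ℕ) (f : H G), l1 ((T ^ m) f) ≤ θ ^ m * l1 f := by
    intro m
    induction m with
    | zero => intro f; simp
    | succ m ih =>
      intro f
      rw [pow_succ']
      change l1 (T ((T ^ m) f)) ≤ _
      refine (hl _).trans ?_
      rw [pow_succ', mul_assoc]
      exact mul_le_mul' le_rfl (ih f)
  have hpt : ∀ x, ‖k x‖ₑ ≤ ∑' n : ℕ, ‖(T ^ n) F x‖ₑ := by
    intro x
    have h1 : ∀ m : ℕ, ‖k x‖ₑ ≤ ∑' n : ℕ, ‖(T ^ n) F x‖ₑ + ENNReal.ofReal (‖T‖ ^ m * ‖k‖) := by
      intro m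
      have h2 : k x = ∑ n ∈ Finset.range m, (T ^ n) F x + (T ^ m) k x := by
        conv_lhs => rw [hexp m]
        rw [lp.coeFn_add, Pi.add_apply, lp.coeFn_sum, Finset.sum_apply]
      rw [h2]
      refine (enorm_add_le _ _).trans (add_le_add ?_ ?_)
      · exact (enorm_sum_le _ _).trans (ENNReal.sum_le_tsum _)
      · rw [← ofReal_norm]
        apply ENNReal.ofReal_le_ofReal
        exact (lp.norm_apply_le_norm (p := 2) (by norm_num) _ _).trans (hnm m k)
    have h3 : Tendsto (fun m : ℕ => ∑' n : ℕ, ‖(T ^ n) F x‖ₑ + ENNReal.ofReal (‖T‖ ^ m * ‖k‖))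
        atTop (𝓝 (∑' n : ℕ, ‖(T ^ n) F x‖ₑ + ENNReal.ofReal (0 * ‖k‖))) := by
      refine Tendsto.const_add _ ?_
      apply ENNReal.tendsto_ofReal
      exact (tendsto_pow_atTop_nhds_zero_of_lt_one (norm_nonneg _) hT).mul_const _
    have h4 := ge_of_tendsto' h3 h1
    simpa using h4
  refine ne_top_of_le_ne_top ?_ (b := ∑' n : ℕ, θ ^ n * l1 F) ?_
  · rw [ENNReal.tsum_mul_right, ENNReal.tsum_geometric]
    exact ENNReal.mul_ne_top (ENNReal.inv_ne_top.2 (tsub_pos_of_lt hθ).ne') hF
  · unfold l1 at *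
    refine (ENNReal.tsum_le_tsum hpt).trans ?_
    rw [ENNReal.tsum_comm]
    exact ENNReal.tsum_le_tsum fun n => hTm n F

section grp
variable {G : Type} [Group G]

/-- Right convolution as an operator. -/
noncomputable def rconvL (b : G → ℂ) : H G →L[ℂ] H G :=
  ∑' g, b g • (tr (Equiv.mulRight g⁻¹)).toContinuousLinearMap

theorem summable_rconvL {b : G → ℂ} (hb : Summable fun g => ‖b g‖) :
    Summable fun g => b g • (tr (Equiv.mulRight g⁻¹)).toContinuousLinearMap := by
  refine Summable.of_norm_bounded hb (fun g => ?_)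
  rw [norm_smul]
  exact mul_le_of_le_one_right (norm_nonneg _) (norm_tr_le _)

theorem rconvL_apply {b : G → ℂ} (hb : Summable fun g => ‖b g‖) (f : H G) (x : G) :
    rconvL b f x = ∑' g, b g * f (x * g⁻¹) := by
  have h1 : HasSum (fun g => b g • (tr (Equiv.mulRight g⁻¹)).toContinuousLinearMap) (rconvL b) :=
    (summable_rconvL hb).hasSum
  have h2 := h1.mapL ((lp.evalCLM ℂ (fun _ : G => ℂ) 2 x).comp
    (ContinuousLinearMap.apply ℂ (H G) f))
  exact h2.tsum_eq.symm

theorem norm_rconvL_le {b : G → ℂ} (hb : Summable fun g => ‖b g‖) :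
    ‖rconvL b‖ ≤ ∑' g, ‖b g‖ := by
  refine tsum_of_norm_bounded hb.hasSum (fun g => ?_)
  rw [norm_smul]
  exact mul_le_of_le_one_right (norm_nonneg _) (norm_tr_le _)

theorem norm_conv_le {b : G → ℂ} (hb : Summable fun g => ‖b g‖) :
    ‖conv b‖ ≤ ∑' g, ‖b g‖ := by
  refine tsum_of_norm_bounded hb.hasSum (fun g => ?_)
  rw [norm_smul]
  exact mul_le_of_le_one_right (norm_nonneg _) (norm_tr_le _)

theorem l1_rconvL {b : G → ℂ} (hb : Summable fun g => ‖b g‖) (f : H G) :
    l1 (rconvL b f) ≤ l1 b * l1 f := by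
  unfold l1
  calc ∑' x, ‖rconvL b f x‖ₑ ≤ ∑' x, ∑' g, ‖b g‖ₑ * ‖f (x * g⁻¹)‖ₑ := by
        apply ENNReal.tsum_le_tsum; intro x
        rw [rconvL_apply hb]
        refine (enorm_tsum_le _).trans (le_of_eq ?_)
        simp_rw [enorm_mul]
    _ = ∑' g, ‖b g‖ₑ * ∑' x, ‖f (x * g⁻¹)‖ₑ := by
        rw [ENNReal.tsum_comm]
        simp_rw [ENNReal.tsum_mul_left]
    _ = (∑' g, ‖b g‖ₑ) * ∑' x, ‖f x‖ₑ := by
        rw [← ENNReal.tsum_mul_right]
        congr 1; ext g
        congr 1
        exact (Equiv.mulRight g⁻¹).tsum_eq (fun x => ‖f x‖ₑ)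

end grp

open FreeGroup

variable {α : Type} [DecidableEq α]

/-- The averaging operator over the children in two directions. -/
noncomputable def Pav {i j : α} (hij : i ≠ j) : H (FreeGroup α) →L[ℂ] H (FreeGroup α) :=
  mkOp (avg (child i) (child j)) (Real.sqrt (1/2)) (Real.sqrt_nonneg _)
    (avg_bound (child_injective hij))

/-- The selection operator in direction c. -/
noncomputable def Sl (c : α) : H (FreeGroup α) →L[ℂ] H (FreeGroup α) :=
  mkOp (sel (fun g : FreeGroup α => g.toWord.getLast? = some (c, false))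
    (Equiv.mulRight (of c))) 2 (by norm_num)
    (sel_bound _ _)

/-- The right gradient in direction c. -/
noncomputable def Tg (c : α) (k : H (FreeGroup α)) : H (FreeGroup α) :=
  tr (Equiv.mulRight (of c)⁻¹) k - k

theorem Sl_Tg (c : α) (k : H (FreeGroup α)) (g : FreeGroup α) :
    Sl c (Tg c k) g = k g - k (child c g) := by
  change (if g.toWord.getLast? = some (c, false) then - (Tg c k g) else
    Tg c k (g * of c)) = _
  unfold Tg child
  by_cases h : g.toWord.getLast? = some (c, false)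
  · rw [if_pos h, if_pos h]
    simp only [lp.coeFn_sub, Pi.sub_apply, tr_apply, Equiv.coe_mulRight]
    ring
  · rw [if_neg h, if_neg h]
    simp only [lp.coeFn_sub, Pi.sub_apply, tr_apply, Equiv.coe_mulRight, mul_inv_cancel_right]

theorem key_id {i j : α} (hij : i ≠ j) (k : H (FreeGroup α)) :
    k = Pav hij k + (1/2 : ℂ) • (Sl i (Tg i k) + Sl j (Tg j k)) := by
  ext g
  have h1 : Pav hij k g = (1/2) * (k (child i g) + k (child j g)) := rfl
  simp only [lp.coeFn_add, lp.coeFn_smul, Pi.add_apply, Pi.smul_apply, smul_eq_mul]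
  rw [h1, Sl_Tg, Sl_Tg]
  ring

theorem norm_Pav {i j : α} (hij : i ≠ j) : ‖Pav hij‖ ≤ Real.sqrt (1/2) := norm_mkOp_le _ _ _ _

theorem norm_Sl (c : α) : ‖Sl c‖ ≤ 2 := norm_mkOp_le _ _ _ _

theorem grad_bound {i j : α} (hij : i ≠ j) (k : H (FreeGroup α)) :
    (1 - Real.sqrt (1/2)) * ‖k‖ ≤ ‖Tg i k‖ + ‖Tg j k‖ := by
  have h1 : ‖k‖ = ‖Pav hij k + (1/2 : ℂ) • (Sl i (Tg i k) + Sl j (Tg j k))‖ :=
    congrArg Norm.norm (key_id hij k)
  have h2 : ‖Pav hij k‖ ≤ Real.sqrt (1/2) * ‖k‖ :=
    ((Pav hij).le_opNorm k).trans (by gcongr; exact norm_Pav hij)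
  have h3 : ∀ c, ‖Sl c (Tg c k)‖ ≤ 2 * ‖Tg c k‖ := fun c =>
    ((Sl c).le_opNorm _).trans (by gcongr; exact norm_Sl c)
  have h4 : ‖(1/2 : ℂ) • (Sl i (Tg i k) + Sl j (Tg j k))‖ ≤ ‖Tg i k‖ + ‖Tg j k‖ := by
    rw [norm_smul]
    have h5 : ‖(1/2 : ℂ)‖ = 1/2 := by norm_num
    rw [h5]
    have h6 := norm_add_le (Sl i (Tg i k)) (Sl j (Tg j k))
    have h7 := h3 i
    have h8 := h3 j
    linarith
  have h9 := norm_add_le (Pav hij k) ((1/2 : ℂ) • (Sl i (Tg i k) + Sl j (Tg j k)))
  linarith

theorem l1_Pav {i j : α} (hij : i ≠ j) (f : H (FreeGroup α)) :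
    l1 (Pav hij f) ≤ 2⁻¹ * l1 f := by
  unfold l1
  have h1 : ∀ g, ‖Pav hij f g‖ₑ ≤ 2⁻¹ * (‖f (child i g)‖ₑ + ‖f (child j g)‖ₑ) := by
    intro g
    have h2 : Pav hij f g = (1/2) * (f (child i g) + f (child j g)) := rfl
    rw [h2, enorm_mul]
    have h3 : ‖(1/2 : ℂ)‖ₑ = 2⁻¹ := by
      rw [← ofReal_norm]
      have : ‖(1/2 : ℂ)‖ = 2⁻¹ := by norm_num
      rw [this, ENNReal.ofReal_inv_of_pos (by norm_num)]
      norm_num
    rw [h3]
    gcongr
    exact enorm_add_le _ _
  refine (ENNReal.tsum_le_tsum h1).trans ?_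
  rw [ENNReal.tsum_mul_left]
  refine mul_le_mul' le_rfl ?_
  rw [ENNReal.tsum_add]
  have h2 := ENNReal.tsum_comp_le_tsum_of_injective (child_injective hij) (fun x => ‖f x‖ₑ)
  rw [Summable.tsum_sum ENNReal.summable ENNReal.summable] at h2
  simpa using h2

theorem l1_Sl (c : α) (f : H (FreeGroup α)) : l1 (Sl c f) ≤ 2 * l1 f := by
  unfold l1
  have h1 : ∀ g, ‖Sl c f g‖ₑ ≤ ‖f g‖ₑ + ‖f (g * of c)‖ₑ := by
    intro g
    change ‖if g.toWord.getLast? = some (c, false) then - f g else f (g * of c)‖ₑ ≤ _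
    split_ifs
    · rw [enorm_neg]; exact le_add_right le_rfl
    · exact le_add_left le_rfl
  refine (ENNReal.tsum_le_tsum h1).trans ?_
  rw [ENNReal.tsum_add, two_mul]
  refine add_le_add le_rfl ?_
  exact le_of_eq ((Equiv.mulRight (of c)).tsum_eq (fun x => ‖f x‖ₑ))

end Pool.Agent.Results.MP_2822c4_an.SingleFactor.Grad
end

section
open Filter Topology
open scoped ENNReal InnerProductSpace
namespace Pool.Agent.Results.MP_2822c4_an.SingleFactor.Gen
open Pool.Agent.Results.MP_2822c4_an.SingleFactor.Kap Pool.Agent.Results.MP_2822c4_an.SingleFactor.Tree Pool.Agent.Results.MP_2822c4_an.SingleFactor.Main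
open Pool.Agent.Results.MP_2822c4_an.SingleFactor.Base Pool.Agent.Results.MP_2822c4_an.SingleFactor.Grad

open FreeGroup

variable {α : Type} [DecidableEq α]

omit [DecidableEq α] in
theorem conv_rconv' {x b : FreeGroup α → ℂ} (hx : Summable fun g => ‖x g‖)
    (hb : Summable fun g => ‖b g‖) (k : H (FreeGroup α)) :
    conv x (rconv b k) = rconv b (conv x k) := by
  have h1 : HasSum (fun g => b g • (tr (Equiv.mulRight g⁻¹) k)) (rconv b k) :=
    (summable_rconv hb k).hasSum
  have h2 := h1.mapL (conv x)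
  rw [← h2.tsum_eq]
  unfold rconv
  congr 1
  ext g
  rw [map_smul, conv_rtr hx]

/-- Left translation minus one. -/
noncomputable def Lf (g : FreeGroup α) : H (FreeGroup α) →L[ℂ] H (FreeGroup α) :=
  (tr (Equiv.mulLeft g⁻¹)).toContinuousLinearMap - 1

omit [DecidableEq α] in
theorem Lf_apply (g : FreeGroup α) (f : H (FreeGroup α)) (x : FreeGroup α) :
    Lf g f x = f (g⁻¹ * x) - f x := rfl

omit [DecidableEq α] in
theorem Lf_adj (g : FreeGroup α) (f h : H (FreeGroup α)) :
    ⟪Lf g f, h⟫_ℂ = ⟪f, Lf g⁻¹ h⟫_ℂ := by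
  have h1 : Lf g f = tr (Equiv.mulLeft g⁻¹) f - f := rfl
  have h2 : Lf g⁻¹ h = tr (Equiv.mulLeft g⁻¹⁻¹) h - h := rfl
  rw [h1, h2, inner_sub_left, inner_sub_right]
  congr 1
  have h3 : h = tr (Equiv.mulLeft g⁻¹) (tr (Equiv.mulLeft g⁻¹⁻¹) h) := by
    ext x; simp
  conv_lhs => rw [h3]
  rw [tr_inner]

omit [DecidableEq α] in
theorem norm_Lf (g : FreeGroup α) (f : H (FreeGroup α)) : ‖Lf g f‖ ≤ 2 * ‖f‖ := by
  have h1 : Lf g f = tr (Equiv.mulLeft g⁻¹) f - f := rfl
  rw [h1]
  refine (norm_sub_le _ _).trans ?_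
  rw [(tr _).norm_map]
  linarith

theorem coer {i j : α} (hij : i ≠ j) (f : H (FreeGroup α)) :
    (1/25) * ‖f‖ ^ 2 ≤ ‖Lf (of i)⁻¹ f‖ ^ 2 + ‖Lf (of j)⁻¹ f‖ ^ 2 := by
  set J := tr (Equiv.inv (FreeGroup α)) with hJ
  have h1 : ∀ c : α, ‖Tg c (J f)‖ = ‖Lf (of c)⁻¹ f‖ := by
    intro c
    have h2 : Tg c (J f) = J (Lf (of c)⁻¹ f) := by
      ext x
      unfold Tg
      simp only [lp.coeFn_sub, Pi.sub_apply, hJ, tr_apply, Equiv.coe_mulRight, Equiv.inv_apply,
        Lf_apply, mul_inv_rev, inv_inv]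
    rw [h2, J.norm_map]
  have h2 := grad_bound hij (J f)
  rw [h1, h1, J.norm_map] at h2
  have hs : Real.sqrt (1/2) ≤ 71/100 := by
    rw [Real.sqrt_le_left (by norm_num)]
    norm_num
  have h3 : (29/100) * ‖f‖ ≤ ‖Lf (of i)⁻¹ f‖ + ‖Lf (of j)⁻¹ f‖ := by
    have := norm_nonneg f
    nlinarith
  have h4 := norm_nonneg (Lf (of i)⁻¹ f)
  have h5 := norm_nonneg (Lf (of j)⁻¹ f)
  have h6 := norm_nonneg f
  nlinarith [sq_nonneg (‖Lf (of i)⁻¹ f‖ - ‖Lf (of j)⁻¹ f‖)]

/-- The point mass difference at c. -/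
noncomputable def dl (c g : FreeGroup α) : ℂ := (if g = c then 1 else 0) - (if g = 1 then 1 else 0)

theorem summable_dl (c : FreeGroup α) : Summable fun g => ‖dl c g‖ :=
  ((hasSum_ite_eq c (1 : ℂ)).summable.sub (hasSum_ite_eq (1 : FreeGroup α) (1 : ℂ)).summable).norm

theorem tsum_dl (c : FreeGroup α) (F : FreeGroup α → ℂ) :
    ∑' g, dl c g * F g = F c - F 1 := by
  have h3 : ∀ g, dl c g * F g = (if g = c then F c else 0) - (if g = 1 then F 1 else 0) := by
    intro g
    unfold dl
    by_cases h1 : g = c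
    · subst h1
      by_cases h2 : g = 1
      · subst h2; simp
      · simp [h2]
    · by_cases h2 : g = 1
      · subst h2; simp [h1]
      · simp [h1, h2]
  simp_rw [h3]
  rw [Summable.tsum_sub (hasSum_ite_eq _ _).summable (hasSum_ite_eq _ _).summable, tsum_ite_eq,
    tsum_ite_eq]

theorem main_gen {i j : α} (hij : i ≠ j) {x : FreeGroup α → ℂ}
    (hx : Summable fun g => ‖x g‖) (hx0 : ∑' g, x g = 0)
    {f : α → FreeGroup α → ℂ} (hf : ∀ c, c = i ∨ c = j → Summable fun g => ‖f c g‖)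
    (he : ∀ c, c = i ∨ c = j → ∑' g, ‖cv x (f c) g - dl (of c) g‖ ≤ 1/200) : False := by
  -- remainders
  set r : α → FreeGroup α → ℂ := fun c g => cv x (f c) g - dl (of c) g with hr
  have hrs : ∀ c, c = i ∨ c = j → Summable fun g => ‖r c g‖ := by
    intro c hc
    exact ((summable_cv hx (hf c hc)).of_norm.sub (summable_dl (of c)).of_norm).norm
  have hconv : ∀ c, c = i ∨ c = j → ∀ v : H (FreeGroup α),
      conv x (conv (f c) v) = Lf (of c) v + conv (r c) v := by
    intro c hc v
    rw [conv_conv hx (hf c hc)]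
    ext t
    rw [conv_apply (summable_cv hx (hf c hc)), lp.coeFn_add, Pi.add_apply,
      conv_apply (hrs c hc), Lf_apply]
    have hb : ∀ b : FreeGroup α → ℂ, (Summable fun g => ‖b g‖) →
        Summable fun g => b g * v (g⁻¹ * t) := by
      intro b hb
      refine Summable.of_norm_bounded (g := fun g => ‖b g‖ * ‖v‖) (hb.mul_right _) (fun g => ?_)
      rw [norm_mul]
      have := lp.norm_apply_le_norm (p := 2) (by norm_num) v (g⁻¹ * t)
      gcongr
    have h1 : ∀ g, cv x (f c) g * v (g⁻¹ * t) =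
        dl (of c) g * v (g⁻¹ * t) + r c g * v (g⁻¹ * t) := by
      intro g; simp only [hr]; ring
    simp_rw [h1]
    rw [(hb _ (summable_dl _)).tsum_add (hb _ (hrs c hc)), tsum_dl (of c) (fun g => v (g⁻¹ * t))]
    simp
  have hi : i = i ∨ i = j := Or.inl rfl
  have hj : j = i ∨ j = j := Or.inr rfl
  -- the coercive operator
  set S : H (FreeGroup α) →L[ℂ] H (FreeGroup α) :=
    (conv (f i)).comp (Lf (of i)⁻¹) + (conv (f j)).comp (Lf (of j)⁻¹) with hS
  set Y : H (FreeGroup α) →L[ℂ] H (FreeGroup α) := (conv x).comp S with hY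
  have hYf : ∀ v, Y v = (Lf (of i) (Lf (of i)⁻¹ v) + Lf (of j) (Lf (of j)⁻¹ v)) +
      (conv (r i) (Lf (of i)⁻¹ v) + conv (r j) (Lf (of j)⁻¹ v)) := by
    intro v
    have h1 : Y v = conv x (conv (f i) (Lf (of i)⁻¹ v)) + conv x (conv (f j) (Lf (of j)⁻¹ v)) := by
      change conv x (S v) = _
      rw [← map_add]
      rfl
    rw [h1, hconv i hi, hconv j hj]
    abel
  have hunit : IsUnit Y := by
    refine ContinuousLinearMap.isUnit_of_forall_le_norm_inner_map Y (c := 1/50) (by norm_num)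
      (fun v => ?_)
    have h1 : ∀ c : α, ⟪Lf (of c) (Lf (of c)⁻¹ v), v⟫_ℂ = ((‖Lf (of c)⁻¹ v‖ ^ 2 : ℝ) : ℂ) := by
      intro c
      rw [Lf_adj, inner_self_eq_norm_sq_to_K]
      norm_cast
    have h2 : ∀ c, c = i ∨ c = j → ‖⟪conv (r c) (Lf (of c)⁻¹ v), v⟫_ℂ‖ ≤ (1/100) * ‖v‖ ^ 2 := by
      intro c hc
      refine (norm_inner_le_norm _ _).trans ?_
      have h3 : ‖conv (r c) (Lf (of c)⁻¹ v)‖ ≤ (1/200) * (2 * ‖v‖) := by
        refine ((conv (r c)).le_opNorm _).trans ?_
        exact mul_le_mul ((norm_conv_le (hrs c hc)).trans (he c hc)) (norm_Lf _ _)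
          (norm_nonneg _) (by norm_num)
      nlinarith [norm_nonneg v, norm_nonneg (conv (r c) (Lf (of c)⁻¹ v))]
    have h3 : ⟪Y v, v⟫_ℂ = ((‖Lf (of i)⁻¹ v‖ ^ 2 + ‖Lf (of j)⁻¹ v‖ ^ 2 : ℝ) : ℂ) +
        (⟪conv (r i) (Lf (of i)⁻¹ v), v⟫_ℂ + ⟪conv (r j) (Lf (of j)⁻¹ v), v⟫_ℂ) := by
      rw [hYf, inner_add_left, inner_add_left, inner_add_left, h1, h1]
      push_cast
      ring
    rw [h3]
    have h4 := coer hij v
    have h5 := h2 i hi
    have h6 := h2 j hj
    have h7 : ‖((‖Lf (of i)⁻¹ v‖ ^ 2 + ‖Lf (of j)⁻¹ v‖ ^ 2 : ℝ) : ℂ)‖ =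
        ‖Lf (of i)⁻¹ v‖ ^ 2 + ‖Lf (of j)⁻¹ v‖ ^ 2 := by
      rw [Complex.norm_real, Real.norm_of_nonneg (by positivity)]
    have h8 := norm_sub_le_norm_add ((‖Lf (of i)⁻¹ v‖ ^ 2 + ‖Lf (of j)⁻¹ v‖ ^ 2 : ℝ) : ℂ)
      (⟪conv (r i) (Lf (of i)⁻¹ v), v⟫_ℂ + ⟪conv (r j) (Lf (of j)⁻¹ v), v⟫_ℂ)
    have h9 := norm_add_le (⟪conv (r i) (Lf (of i)⁻¹ v), v⟫_ℂ) (⟪conv (r j) (Lf (of j)⁻¹ v), v⟫_ℂ)
    have h10 : (((1/50 : NNReal) : ℝ)) = 1/50 := by norm_num
    rw [h10]
    linarith
  obtain ⟨w, hw⟩ : ∃ w, Y w = lp.single 2 1 1 := by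
    obtain ⟨u, hu⟩ := hunit
    refine ⟨(↑u⁻¹ : H (FreeGroup α) →L[ℂ] H (FreeGroup α)) (lp.single 2 1 1), ?_⟩
    rw [← hu]
    have : ((↑u : H (FreeGroup α) →L[ℂ] H (FreeGroup α)) *
        (↑u⁻¹ : H (FreeGroup α) →L[ℂ] H (FreeGroup α))) (lp.single 2 1 1) = lp.single 2 1 1 := by
      rw [Units.mul_inv]; rfl
    exact this
  set k : H (FreeGroup α) := S w with hk
  have hkd : conv x k = lp.single 2 1 1 := hw
  have hinj := kaplansky hx k hkd
  -- gradient identity
  have hgrad : ∀ c (hc : c = i ∨ c = j),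
      Tg c k = ⟨f c, summable_sq_of_summable (hf c hc)⟩ - rconvL (r c) k := by
    intro c hc
    have hrc : rconvL (r c) k = rconv (r c) k := by
      ext t; rw [rconvL_apply (hrs c hc), rconv_apply (hrs c hc)]
    have h1 := hinj (Tg c k - (⟨f c, summable_sq_of_summable (hf c hc)⟩ - rconvL (r c) k)) (by
      rw [map_sub, map_sub, hrc, conv_rconv' hx (hrs c hc), hkd]
      unfold Tg
      rw [map_sub, conv_rtr hx, hkd]
      ext t
      simp only [lp.coeFn_sub, Pi.sub_apply, lp.coeFn_zero, Pi.zero_apply]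
      rw [tr_del, del_apply]
      have h2 : conv x (⟨f c, summable_sq_of_summable (hf c hc)⟩ : H (FreeGroup α)) t =
          cv x (f c) t := by
        rw [conv_apply hx]; rfl
      have h3 : rconv (r c) (lp.single 2 1 1 : H (FreeGroup α)) t = r c t := by
        rw [rconv_apply (hrs c hc), tsum_eq_single t]
        · simp
        · intro g hg
          have : t * g⁻¹ ≠ 1 := fun h => hg (by rw [mul_inv_eq_one] at h; exact h.symm)
          simp [this]
      rw [h2, h3]
      simp only [hr, dl]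
      ring)
    exact sub_eq_zero.1 h1
  -- fixed point equation
  set T : H (FreeGroup α) →L[ℂ] H (FreeGroup α) := Pav hij -
    (1/2 : ℂ) • ((Sl i).comp (rconvL (r i)) + (Sl j).comp (rconvL (r j))) with hT
  set F : H (FreeGroup α) := (1/2 : ℂ) • (Sl i ⟨f i, summable_sq_of_summable (hf i hi)⟩ +
    Sl j ⟨f j, summable_sq_of_summable (hf j hj)⟩) with hF
  have hfix : k = F + T k := by
    have h1 := key_id hij k
    rw [hgrad i hi, hgrad j hj, map_sub, map_sub] at h1
    have h2 : T k = Pav hij k - (1/2 : ℂ) • (Sl i (rconvL (r i) k) + Sl j (rconvL (r j) k)) := rfl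
    rw [h2, hF]
    conv_lhs => rw [h1]
    module
  have hsq : Real.sqrt (1/2) ≤ 71/100 := by
    rw [Real.sqrt_le_left (by norm_num)]
    norm_num
  have hSr : ∀ c (hc : c = i ∨ c = j), ‖(Sl c).comp (rconvL (r c))‖ ≤ 1/100 := by
    intro c hc
    refine ((Sl c).opNorm_comp_le _).trans ?_
    have h1 := norm_Sl c
    have h2 := (norm_rconvL_le (hrs c hc)).trans (he c hc)
    nlinarith [norm_nonneg (Sl c), norm_nonneg (rconvL (r c))]
  have hTn : ‖T‖ < 1 := by
    have h1 := norm_sub_le (Pav hij)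
      ((1/2 : ℂ) • ((Sl i).comp (rconvL (r i)) + (Sl j).comp (rconvL (r j))))
    have h2 : ‖(1/2 : ℂ) • ((Sl i).comp (rconvL (r i)) + (Sl j).comp (rconvL (r j)))‖ ≤ 1/100 := by
      rw [norm_smul]
      have h5 : ‖(1/2 : ℂ)‖ = 1/2 := by norm_num
      rw [h5]
      have h6 := norm_add_le ((Sl i).comp (rconvL (r i))) ((Sl j).comp (rconvL (r j)))
      have h7 := hSr i hi
      have h8 := hSr j hj
      linarith
    have h3 := norm_Pav hij
    linarith
  have hl1r : ∀ c (hc : c = i ∨ c = j), l1 (r c) ≤ ENNReal.ofReal (1/200) := by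
    intro c hc
    unfold l1
    simp_rw [← ofReal_norm]
    rw [← ENNReal.ofReal_tsum_of_nonneg (fun _ => norm_nonneg _) (hrs c hc)]
    exact ENNReal.ofReal_le_ofReal (he c hc)
  have hhalf : ‖(1/2 : ℂ)‖ₑ = 2⁻¹ := by
    rw [← ofReal_norm]
    have : ‖(1/2 : ℂ)‖ = 2⁻¹ := by norm_num
    rw [this, ENNReal.ofReal_inv_of_pos (by norm_num)]
    norm_num
  have hl1add : ∀ u v : H (FreeGroup α), l1 (u + v : H (FreeGroup α)) ≤ l1 u + l1 v := by
    intro u v
    unfold l1
    rw [← ENNReal.tsum_add]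
    apply ENNReal.tsum_le_tsum; intro t
    exact enorm_add_le _ _
  have hl1sub : ∀ u v : H (FreeGroup α), l1 (u - v : H (FreeGroup α)) ≤ l1 u + l1 v := by
    intro u v
    unfold l1
    rw [← ENNReal.tsum_add]
    apply ENNReal.tsum_le_tsum; intro t
    exact enorm_sub_le
  have hl1smul : ∀ v : H (FreeGroup α), l1 ((1/2 : ℂ) • v : H (FreeGroup α)) = 2⁻¹ * l1 v := by
    intro v
    unfold l1
    rw [← ENNReal.tsum_mul_left]
    congr 1; ext t
    rw [lp.coeFn_smul, Pi.smul_apply, smul_eq_mul, enorm_mul, hhalf]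
  have hkl1 : l1 k ≠ ∞ := by
    refine neumann T hTn (2⁻¹ + ENNReal.ofReal (1/100)) ?_ ?_ k F hfix ?_
    · have h1 : (2⁻¹ : ℝ≥0∞) = ENNReal.ofReal (1/2) := by
        rw [one_div, ENNReal.ofReal_inv_of_pos (by norm_num)]; norm_num
      rw [h1, ← ENNReal.ofReal_add (by norm_num) (by norm_num)]
      exact ENNReal.ofReal_lt_one.2 (by norm_num)
    · intro v
      have h2 : T v = Pav hij v - (1/2 : ℂ) • (Sl i (rconvL (r i) v) + Sl j (rconvL (r j) v)) := rfl
      rw [h2, add_mul]
      refine (hl1sub _ _).trans (add_le_add (l1_Pav hij v) ?_)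
      rw [hl1smul]
      have h3 : ∀ c (hc : c = i ∨ c = j), l1 (Sl c (rconvL (r c) v)) ≤
          ENNReal.ofReal (1/100) * l1 v := by
        intro c hc
        refine (l1_Sl c _).trans ?_
        have h4 : (2 : ℝ≥0∞) * (ENNReal.ofReal (1/200) * l1 v) = ENNReal.ofReal (1/100) * l1 v := by
          rw [← mul_assoc]
          congr 1
          have : (2 : ℝ≥0∞) = ENNReal.ofReal 2 := by norm_num
          rw [this, ← ENNReal.ofReal_mul (by norm_num)]
          norm_num
        rw [← h4]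
        refine mul_le_mul' le_rfl ((l1_rconvL (hrs c hc) v).trans ?_)
        exact mul_le_mul' (hl1r c hc) le_rfl
      calc 2⁻¹ * l1 (Sl i (rconvL (r i) v) + Sl j (rconvL (r j) v) : H (FreeGroup α))
          ≤ 2⁻¹ * (ENNReal.ofReal (1/100) * l1 v + ENNReal.ofReal (1/100) * l1 v) := by
            refine mul_le_mul' le_rfl ((hl1add _ _).trans (add_le_add (h3 i hi) (h3 j hj)))
        _ = ENNReal.ofReal (1/100) * l1 v := by
            rw [← two_mul, ← mul_assoc, ENNReal.inv_mul_cancel (by norm_num) (by norm_num),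
              one_mul]
    · rw [hF, hl1smul]
      refine ENNReal.mul_ne_top (by norm_num) (ne_top_of_le_ne_top ?_ (hl1add _ _))
      refine ENNReal.add_ne_top.2 ⟨ne_top_of_le_ne_top ?_ (l1_Sl i _),
        ne_top_of_le_ne_top ?_ (l1_Sl j _)⟩
      · exact ENNReal.mul_ne_top (by norm_num) (tsum_enorm_ne_top (hf i hi))
      · exact ENNReal.mul_ne_top (by norm_num) (tsum_enorm_ne_top (hf j hj))
  have hksum : Summable fun g => ‖k g‖ := summable_of_enorm hkl1
  have h3 := tsum_cv hx hksum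
  rw [hx0, zero_mul] at h3
  have h4 : ∀ t, cv x (fun g => k g) t = if t = 1 then 1 else 0 := by
    intro t
    have h5 : cv x (fun g => k g) t = conv x k t := (conv_apply hx k t).symm
    rw [h5, hkd, del_apply]
  simp_rw [h4] at h3
  rw [tsum_ite_eq] at h3
  exact one_ne_zero h3

end Pool.Agent.Results.MP_2822c4_an.SingleFactor.Gen
end


namespace Pool.Agent.Results.MP_2822c4_an.SingleFactor

/-- The difference of the point masses at the free generator a_i and at the identity. -/
noncomputable def genDiff (i : ℕ) (s : FreeGroup ℕ) : ℂ :=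
  (if s = FreeGroup.of i then 1 else 0) - (if s = 1 then 1 else 0)

theorem genDiff_mem (i : ℕ) : Summable (genDiff i) ∧ ∑' x, genDiff i x = 0 := by
  have hd : ∀ c : FreeGroup ℕ,
      Summable (fun g : FreeGroup ℕ => if g = c then (1 : ℂ) else 0) :=
    fun c => (hasSum_ite_eq c 1).summable
  refine ⟨(hd _).sub (hd _), ?_⟩
  unfold genDiff
  rw [(hd _).tsum_sub (hd _), tsum_ite_eq, tsum_ite_eq, sub_self]

theorem gap (b : FreeGroup ℕ → ℂ) (hb : Summable b) (hb0 : ∑' x, b x = 0) :
    ∃ i : ℕ, (i = 0 ∨ i = 1) ∧ ∀ c : FreeGroup ℕ → ℂ, Summable c →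
      1/200 < ∑' x, ‖genDiff i x - ∑' y, b y * c (y⁻¹ * x)‖ := by
  by_contra hcon
  push Not at hcon
  have h01 : (0 : ℕ) ≠ 1 := by omega
  choose F hF1 hF2 using hcon
  refine Gen.main_gen (α := ℕ) h01 (x := b) hb.norm hb0
    (f := fun c => if h : c = 0 ∨ c = 1 then F c h else 0) (fun c hc => ?_) (fun c hc => ?_)
  · simp only [dif_pos hc]
    exact (hF1 c hc).norm
  · have h1 := hF2 c hc
    refine le_trans (le_of_eq ?_) h1
    congr 1; ext s
    simp only [dif_pos hc]
    rw [← norm_neg]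
    congr 1
    change -(Main.cv b (F c hc) s - Gen.dl (FreeGroup.of c) s) =
      Gen.dl (FreeGroup.of c) s - Main.cv b (F c hc) s
    ring

/-- There is a null sequence in the augmentation ideal (with only two nonzero terms, the
differences a_0 - 1 and a_1 - 1) such that for every b in the augmentation ideal one of its terms
stays at distance more than 1/200 from every product of b with an absolutely summable function.
In particular it is not of the form (b * c_k) with b and all c_k in the augmentation ideal. -/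
theorem result :
    ∃ a : ℕ → FreeGroup ℕ → ℂ,
      (∀ k x, a k x = if k < 2 then genDiff k x else 0) ∧
      (∀ k, Summable (a k)) ∧ (∀ k, ∑' x, a k x = 0) ∧
      Filter.Tendsto (fun k => ∑' x, ‖a k x‖) Filter.atTop (nhds 0) ∧
      (∀ b : FreeGroup ℕ → ℂ, Summable b → ∑' x, b x = 0 →
        ∃ k : ℕ, ∀ c : FreeGroup ℕ → ℂ, Summable c →
          1/200 < ∑' x, ‖a k x - ∑' y, b y * c (y⁻¹ * x)‖) ∧
      ¬ ∃ b : FreeGroup ℕ → ℂ, ∃ c : ℕ → FreeGroup ℕ → ℂ,
        Summable b ∧ ∑' x, b x = 0 ∧ (∀ k, Summable (c k)) ∧ (∀ k, ∑' x, c k x = 0) ∧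
        Filter.Tendsto (fun k => ∑' x, ‖c k x‖) Filter.atTop (nhds 0) ∧
        ∀ k x, a k x = ∑' y, b y * c k (y⁻¹ * x) := by
  have hgap : ∀ b : FreeGroup ℕ → ℂ, Summable b → ∑' x, b x = 0 →
      ∃ k : ℕ, ∀ c : FreeGroup ℕ → ℂ, Summable c →
        1/200 < ∑' x, ‖(if k < 2 then genDiff k x else 0) - ∑' y, b y * c (y⁻¹ * x)‖ := by
    intro b hb hb0
    obtain ⟨i, hi, h⟩ := gap b hb hb0
    refine ⟨i, fun c hc => ?_⟩
    have hi2 : i < 2 := by omega
    simp only [if_pos hi2]
    exact h c hc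
  refine ⟨fun k x => if k < 2 then genDiff k x else 0, fun _ _ => rfl, fun k => ?_, fun k => ?_,
    ?_, hgap, ?_⟩
  · by_cases hk : k < 2
    · simp only [if_pos hk]; exact (genDiff_mem k).1
    · simp only [if_neg hk]; exact summable_zero
  · by_cases hk : k < 2
    · simp only [if_pos hk]; exact (genDiff_mem k).2
    · simp only [if_neg hk]; exact tsum_zero
  · refine tendsto_const_nhds.congr' ?_
    filter_upwards [Filter.eventually_ge_atTop 2] with k hk
    simp [not_lt.2 hk]
  · rintro ⟨b, c, hb, hb0, hc, -, -, he⟩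
    obtain ⟨k, hk⟩ := hgap b hb hb0
    have h1 := hk (c k) (hc k)
    have h2 : ∀ x, (if k < 2 then genDiff k x else 0) - ∑' y, b y * c k (y⁻¹ * x) = 0 :=
      fun x => sub_eq_zero.2 (he k x)
    simp only [h2, norm_zero, tsum_zero] at h1
    norm_num at h1

end Pool.Agent.Results.MP_2822c4_an.SingleFactor
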